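import Pool.Agent.H67.HM.Stm2

/-!
# Part PZ of crew HM2: polynomials without zeros on the circle are dense
-/

set_option autoImplicit false

open Polynomial Filter Topology

namespace HM

private theorem tl_sum (P : ℂ[X]) (n : ℕ) (hn : P.natDegree < n) :
    tl P = ∑ k ∈ Finset.range n, P.coeff k • TT (k : ℤ) := by
  conv_lhs => rw [P.as_sum_range' n hn]
  rw [map_sum]
  refine Finset.sum_congr rfl fun k _ => ?_
  show Polynomial.toLaurent (monomial k (P.coeff k)) = _
  rw [← C_mul_X_pow_eq_monomial, Polynomial.toLaurent_C_mul_X_pow,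
    ← LaurentPolynomial.smul_eq_C_mul]
  rfl

theorem PZ_proved (hN : S_NRM) : S_PZ := by
  intro A ε hε
  have hTT : ∀ k : ℤ, Nn 1 (TT k) = 1 := by
    intro k
    have h1 := hN.single_mul 1 k (1 : RR) le_rfl
    rw [mul_one, hN.one 1 le_rfl] at h1
    exact h1
  have htl : ∀ (P : ℂ[X]) (n : ℕ), P.natDegree < n →
      Nn 1 (tl P) ≤ ∑ k ∈ Finset.range n, ‖P.coeff k‖ := by
    intro P n hn
    rw [tl_sum P n hn]
    refine (hN.sum 1 _ _ le_rfl).trans (Finset.sum_le_sum fun k _ => ?_)
    rw [hN.smul 1 _ _ le_rfl, hTT, mul_one]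
  have key : ∀ B : ℂ[X], B.natDegree ≤ A.natDegree →
      (∑ k ∈ Finset.range (A.natDegree + 1), ‖B.coeff k - A.coeff k‖ ≤ ε) →
      (∀ k, ‖B.coeff k - A.coeff k‖ ≤ ε) ∧ Nn 1 (tl B - tl A) ≤ ε := by
    intro B hB hsum
    refine ⟨fun k => ?_, ?_⟩
    · by_cases hk : k ∈ Finset.range (A.natDegree + 1)
      · exact (Finset.single_le_sum (f := fun k => ‖B.coeff k - A.coeff k‖)
          (fun _ _ => norm_nonneg _) hk).trans hsum
      · rw [Finset.mem_range, not_lt] at hk
        rw [coeff_eq_zero_of_natDegree_lt (show B.natDegree < k by omega),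
          coeff_eq_zero_of_natDegree_lt (show A.natDegree < k by omega), sub_zero, norm_zero]
        exact hε.le
    · rw [← map_sub]
      refine (htl (B - A) (A.natDegree + 1) ?_).trans ?_
      · have := natDegree_sub_le B A
        omega
      · simpa only [coeff_sub] using hsum
  by_cases hA : A = 0
  · refine ⟨C (ε : ℂ), ?_, ?_, ?_⟩
    · rw [natDegree_C]
      exact Nat.zero_le _
    · intro z _
      rw [eval_C]
      exact_mod_cast hε.ne'
    · refine key _ ?_ ?_
      · rw [natDegree_C]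
        exact Nat.zero_le _
      · rw [hA, natDegree_zero, zero_add, Finset.sum_range_one, coeff_C_zero, coeff_zero, sub_zero,
          Complex.norm_real, Real.norm_of_nonneg hε.le]
  · set s : ℝ → ℝ := fun r => ∑ k ∈ Finset.range (A.natDegree + 1),
      ‖A.coeff k * (r : ℂ) ^ k - A.coeff k‖ with hs
    have hsc : Continuous s := by
      rw [hs]
      fun_prop
    have hs1 : s 1 = 0 := by
      rw [hs]
      simp
    have h1 : ∀ᶠ r in 𝓝[<] (1 : ℝ), s r < ε :=
      (hsc.tendsto 1).mono_left nhdsWithin_le_nhds |>.eventually (by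
        rw [hs1]
        exact Iio_mem_nhds hε)
    set F : Set ℝ := ((fun z : ℂ => ‖z‖) '' (A.roots.toFinset : Set ℂ)) \ {1} with hF
    have hFf : F.Finite := ((Finset.finite_toSet _).image _).subset Set.sdiff_subset
    have h2 : ∀ᶠ r in 𝓝[<] (1 : ℝ), r ∉ F :=
      nhdsWithin_le_nhds (hFf.isClosed.compl_mem_nhds (fun h => h.2 rfl))
    have h3 : ∀ᶠ r in 𝓝[<] (1 : ℝ), r < 1 := eventually_mem_nhdsWithin
    have h4 : ∀ᶠ r in 𝓝[<] (1 : ℝ), 0 < r :=
      nhdsWithin_le_nhds (Ioi_mem_nhds one_pos)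
    obtain ⟨r, g1, g2, g3, g4⟩ := (h1.and (h2.and (h3.and h4))).exists
    have hcoef : ∀ k, (A.comp (C (r : ℂ) * X)).coeff k = A.coeff k * (r : ℂ) ^ k := fun k =>
      comp_C_mul_X_coeff
    have hdeg : (A.comp (C (r : ℂ) * X)).natDegree ≤ A.natDegree := by
      rw [natDegree_le_iff_coeff_eq_zero]
      intro k hk
      rw [hcoef, coeff_eq_zero_of_natDegree_lt hk, zero_mul]
    refine ⟨A.comp (C (r : ℂ) * X), hdeg, ?_, ?_⟩
    · intro z hz h0
      rw [eval_comp, eval_mul, eval_C, eval_X] at h0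
      apply g2
      refine ⟨⟨(r : ℂ) * z, ?_, ?_⟩, ?_⟩
      · rw [Finset.mem_coe, Multiset.mem_toFinset, mem_roots hA]
        exact h0
      · show ‖(r : ℂ) * z‖ = r
        rw [norm_mul, hz, mul_one, Complex.norm_real, Real.norm_of_nonneg g4.le]
      · intro h
        exact absurd h g3.ne
    · refine key _ hdeg ?_
      simp only [hcoef]
      exact g1.le

end HM
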